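import Pool.Agent.helper74.VN.SpecC
import Pool.Agent.helper92.VQ.VUM

/-!
# Row `vn:NUM` (MP_07c750): measurability, range and composition of the step kernels (copy of VUM, helper92)
-/

set_option autoImplicit false

open scoped MatrixGroups ContDiff Topology UpperHalfPlane ComplexConjugate ENNReal
open UpperHalfPlane MeasureTheory Filter Set

namespace Pool.Agent.VN

open Pool.Agent.RS Pool.Agent.VQ

noncomputable section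

theorem NUM_ker {k : ℝ} {Γ : Subgroup SL(2, ℝ)} {F : Set ℍ} {W : Set ℝ} (hM : VUM_M Γ F W) (D : Dyn) (τ r B T : ℝ)
    (Ψ G : SL(2, ℝ) × ℝ → ℍ → ℂ) (hW : ∀ E ∈ W, |E| ≤ k)
    (hΨ : ContinuousOn (fun x : (SL(2, ℝ) × ℝ) × ℍ => Ψ x.1 x.2) {x | |x.1.2| ≤ k})
    (hΨi : ∀ (γ : Γ) (p : SL(2, ℝ) × ℝ) (z : ℍ), Ψ ((γ : SL(2, ℝ)) * p.1, p.2) (γ • z) = Ψ p z)
    (hG : Continuous (fun x : (SL(2, ℝ) × ℝ) × ℍ => G x.1 x.2))
    (hGi : ∀ (γ : Γ) (p : SL(2, ℝ) × ℝ) (z : ℍ), G ((γ : SL(2, ℝ)) * p.1, p.2) (γ • z) = G p z)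
    (hB : ∀ p q : SL(2, ℝ) × ℝ, p.2 ∈ W → q.2 ∈ W → ‖∫ z : ℍ, conj (Ψ p z) * G q z‖ ≤ B)
    (hfl : ContinuousOn (fun p : SL(2, ℝ) × ℝ => D.fl p.2 τ p.1) {p | |p.2| ≤ k})
    (hflγ : ∀ (γ : Γ) (p : SL(2, ℝ) × ℝ), D.fl p.2 τ ((γ : SL(2, ℝ)) * p.1) = (γ : SL(2, ℝ)) * D.fl p.2 τ p.1)
    (hT : ∀ p q : SL(2, ℝ) × ℝ, p.2 ∈ W → Nb r (D.ph τ p) q → dW p q ≤ T)
    (hBo : MeasurableSet (Bo r)) : KZ Γ dW (VUM_K D τ r W Ψ G) ∧ VUM_S W (VUM_K D τ r W Ψ G) := by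
  classical
  have := VUM_sec
  have hc1 : MeasurableSet {x : (SL(2, ℝ) × ℝ) × ℍ | |x.1.2| ≤ k} :=
    (isClosed_le (by fun_prop) continuous_const).measurableSet
  have hc2 : MeasurableSet {x : (SL(2, ℝ) × ℝ) × (SL(2, ℝ) × ℝ) | |x.1.2| ≤ k} :=
    (isClosed_le (by fun_prop) continuous_const).measurableSet
  -- the integral is measurable
  have hg : Measurable ({x : (SL(2, ℝ) × ℝ) × ℍ | |x.1.2| ≤ k}.piecewise
      (fun x : (SL(2, ℝ) × ℝ) × ℍ => Ψ x.1 x.2) fun _ => (0 : ℂ)) :=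
    hΨ.measurable_piecewise continuousOn_const hc1
  set g := {x : (SL(2, ℝ) × ℝ) × ℍ | |x.1.2| ≤ k}.piecewise
      (fun x : (SL(2, ℝ) × ℝ) × ℍ => Ψ x.1 x.2) fun _ => (0 : ℂ) with hgdef
  have hI : Measurable fun y : (SL(2, ℝ) × ℝ) × (SL(2, ℝ) × ℝ) => ∫ z : ℍ, conj (g (y.1, z)) * G y.2 z := by
    have h1 : Measurable (Function.uncurry fun (y : (SL(2, ℝ) × ℝ) × (SL(2, ℝ) × ℝ)) (z : ℍ) =>
        conj (g (y.1, z)) * G y.2 z) := by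
      have m1 : Measurable fun y : ((SL(2, ℝ) × ℝ) × (SL(2, ℝ) × ℝ)) × ℍ => conj (g (y.1.1, y.2)) :=
        Complex.continuous_conj.measurable.comp (hg.comp (measurable_fst.fst.prodMk measurable_snd))
      have m2 : Measurable fun y : ((SL(2, ℝ) × ℝ) × (SL(2, ℝ) × ℝ)) × ℍ => G y.1.2 y.2 :=
        hG.measurable.comp (measurable_fst.snd.prodMk measurable_snd)
      exact m1.mul m2
    exact (h1.stronglyMeasurable.integral_prod_right (ν := (volume : Measure ℍ))).measurable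
  -- the condition is measurable
  have hfl2 : ContinuousOn (fun x : (SL(2, ℝ) × ℝ) × (SL(2, ℝ) × ℝ) => (D.fl x.1.2 τ x.1.1)⁻¹ * x.2.1)
      {x | |x.1.2| ≤ k} := by
    have h1 : ContinuousOn (fun x : (SL(2, ℝ) × ℝ) × (SL(2, ℝ) × ℝ) => D.fl x.1.2 τ x.1.1) {x | |x.1.2| ≤ k} :=
      hfl.comp continuous_fst.continuousOn fun x hx => hx
    exact h1.inv.mul (continuous_snd.fst.continuousOn)
  have hh : Measurable ({x : (SL(2, ℝ) × ℝ) × (SL(2, ℝ) × ℝ) | |x.1.2| ≤ k}.piecewise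
      (fun x => (D.fl x.1.2 τ x.1.1)⁻¹ * x.2.1) fun _ => (1 : SL(2, ℝ))) :=
    hfl2.measurable_piecewise continuousOn_const hc2
  set h := {x : (SL(2, ℝ) × ℝ) × (SL(2, ℝ) × ℝ) | |x.1.2| ≤ k}.piecewise
      (fun x => (D.fl x.1.2 τ x.1.1)⁻¹ * x.2.1) fun _ => (1 : SL(2, ℝ)) with hhdef
  have hS : MeasurableSet {x : (SL(2, ℝ) × ℝ) × (SL(2, ℝ) × ℝ) | x.1.2 ∈ W ∧ x.2.2 ∈ W ∧ Nb r (D.ph τ x.1) x.2} := by
    have h1 : {x : (SL(2, ℝ) × ℝ) × (SL(2, ℝ) × ℝ) | x.1.2 ∈ W ∧ x.2.2 ∈ W ∧ Nb r (D.ph τ x.1) x.2} =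
        {x | x.1.2 ∈ W} ∩ {x | x.2.2 ∈ W} ∩ (h ⁻¹' Bo r) ∩ {x | |x.1.2 - x.2.2| < r} := by
      ext x
      simp only [mem_inter_iff, mem_setOf_eq, mem_preimage]
      constructor
      · rintro ⟨a1, a2, a3, a4⟩
        refine ⟨⟨⟨a1, a2⟩, ?_⟩, a4⟩
        rw [hhdef, piecewise_eq_of_mem _ _ _ (show x ∈ {x : (SL(2, ℝ) × ℝ) × (SL(2, ℝ) × ℝ) | |x.1.2| ≤ k} from hW _ a1)]
        exact a3
      · rintro ⟨⟨⟨a1, a2⟩, a3⟩, a4⟩
        rw [hhdef, piecewise_eq_of_mem _ _ _ (show x ∈ {x : (SL(2, ℝ) × ℝ) × (SL(2, ℝ) × ℝ) | |x.1.2| ≤ k} from hW _ a1)] at a3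
        exact ⟨a1, a2, a3, a4⟩
    rw [h1]
    refine ((MeasurableSet.inter ?_ ?_).inter (hh hBo)).inter ?_
    · exact measurable_fst.snd hM.Wm
    · exact measurable_snd.snd hM.Wm
    · exact measurableSet_lt (by fun_prop) measurable_const
  refine ⟨⟨?_, ⟨max B 0, fun p q => ?_⟩, ?_, ⟨T, fun p q hpq => ?_⟩⟩, fun p q hpq => ?_⟩
  · have h1 : Function.uncurry (VUM_K D τ r W Ψ G) =
        {x : (SL(2, ℝ) × ℝ) × (SL(2, ℝ) × ℝ) | x.1.2 ∈ W ∧ x.2.2 ∈ W ∧ Nb r (D.ph τ x.1) x.2}.indicator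
          fun y => ∫ z : ℍ, conj (g (y.1, z)) * G y.2 z := by
      funext x
      by_cases hx : x ∈ {x : (SL(2, ℝ) × ℝ) × (SL(2, ℝ) × ℝ) | x.1.2 ∈ W ∧ x.2.2 ∈ W ∧ Nb r (D.ph τ x.1) x.2}
      · rw [indicator_of_mem hx]
        show (if _ then _ else _) = _
        rw [if_pos (show x.1.2 ∈ W ∧ x.2.2 ∈ W ∧ Nb r (D.ph τ x.1) x.2 from hx)]
        refine integral_congr_ae (Eventually.of_forall fun z => ?_)
        show conj (Ψ x.1 z) * G x.2 z = conj (g (x.1, z)) * G x.2 z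
        rw [hgdef, piecewise_eq_of_mem _ _ _ (show (x.1, z) ∈ {x : (SL(2, ℝ) × ℝ) × ℍ | |x.1.2| ≤ k} from hW _ hx.1)]
      · rw [indicator_of_notMem hx]
        show (if _ then _ else _) = _
        rw [if_neg (show ¬(x.1.2 ∈ W ∧ x.2.2 ∈ W ∧ Nb r (D.ph τ x.1) x.2) from hx)]
    rw [h1]
    exact hI.indicator hS
  · unfold VUM_K
    split_ifs with hx
    · exact (hB p q hx.1 hx.2.1).trans (le_max_left _ _)
    · rw [norm_zero]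
      exact le_max_right _ _
  · intro γ p q
    have hcond : Nb r (D.ph τ (γ • p)) (γ • q) ↔ Nb r (D.ph τ p) q := by
      have h2 : (D.ph τ (γ • p)).1⁻¹ * (γ • q).1 = (D.ph τ p).1⁻¹ * q.1 := by
        show (D.fl p.2 τ ((γ : SL(2, ℝ)) * p.1))⁻¹ * ((γ : SL(2, ℝ)) * q.1) = (D.fl p.2 τ p.1)⁻¹ * q.1
        rw [hflγ γ p, mul_inv_rev, mul_assoc, inv_mul_cancel_left]
      unfold Nb
      rw [h2]
      rfl
    have hint : ∫ z : ℍ, conj (Ψ (γ • p) z) * G (γ • q) z = ∫ z : ℍ, conj (Ψ p z) * G q z := by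
      have he : MeasurableEmbedding fun z : ℍ => γ • z :=
        (Homeomorph.smul (γ : SL(2, ℝ))).measurableEmbedding
      have h1 := (hM.mz γ).integral_comp he (fun z => conj (Ψ (γ • p) z) * G (γ • q) z)
      rw [← h1]
      refine integral_congr_ae (Eventually.of_forall fun z => ?_)
      show conj (Ψ ((γ : SL(2, ℝ)) * p.1, p.2) (γ • z)) * G ((γ : SL(2, ℝ)) * q.1, q.2) (γ • z) = conj (Ψ p z) * G q z
      rw [hΨi, hGi]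
    unfold VUM_K
    by_cases hx : p.2 ∈ W ∧ q.2 ∈ W ∧ Nb r (D.ph τ p) q
    · rw [if_pos hx, if_pos ⟨hx.1, hx.2.1, hcond.2 hx.2.2⟩, hint]
    · rw [if_neg hx, if_neg fun h' => hx ⟨h'.1, h'.2.1, hcond.1 h'.2.2⟩]
  · unfold VUM_K at hpq
    split_ifs at hpq with hx
    · exact hT p q hx.1 hx.2.2
    · exact absurd rfl hpq
  · unfold VUM_K at hpq
    split_ifs at hpq with hx
    · exact ⟨hx.1, hx.2.1⟩
    · exact absurd rfl hpq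

theorem NUM_ev (k C z2 e3 : ℝ) (hk : 0 < k) (hC : 1 ≤ C) (hz : z2 ≤ 1 / 8) (he : 0 < e3) : ∃ R0 : ℝ, 1 ≤ R0 ∧ ∀ R, R0 ≤ R →
    2 * R ^ (-(1 / 4) : ℝ) ≤ k ∧ 2 ≤ R ∧ 2 * R ^ (-(1 / 4) : ℝ) ≤ 1 / 8 ∧ 0 < R ^ (-(1 / 2) + z2) ∧ R ^ (-(1 / 2) + z2) ≤ 1 / 2 ∧
      C * R ^ (-(1 / 2) + z2) ≤ 1 / 2 ∧ C * R ^ (-(1 / 2) + z2) ≤ 4 / 5 * (e3 * Real.log R) ∧ 0 ≤ e3 * Real.log R := by
  obtain ⟨R1, hR1, h1⟩ := VUM_ev C z2 e3 hC hz he
  have h2 : Tendsto (fun R : ℝ => R ^ (-(1 / 4) : ℝ)) atTop (𝓝 0) := tendsto_rpow_neg_atTop (by norm_num)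
  obtain ⟨R2, hR2⟩ := eventually_atTop.1 (h2.eventually_lt_const (u := k / 2) (by positivity))
  refine ⟨max R1 R2, hR1.trans (le_max_left _ _), fun R hR => ?_⟩
  refine ⟨?_, h1 R ((le_max_left _ _).trans hR)⟩
  have := hR2 R ((le_max_right _ _).trans hR)
  linarith

theorem NUM_comp1 (k : ℝ) (f : ((SL(2, ℝ) × ℝ) × ℝ) × ℍ → ℂ) (hf : ContinuousOn f {x | |x.1.1.2| ≤ k}) (σ : ℝ) :
    ContinuousOn (fun x : (SL(2, ℝ) × ℝ) × ℍ => f ((x.1, σ), x.2)) {x | |x.1.2| ≤ k} := by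
  have h1 : Continuous fun x : (SL(2, ℝ) × ℝ) × ℍ => (((x.1, σ), x.2) : ((SL(2, ℝ) × ℝ) × ℝ) × ℍ) :=
    (continuous_fst.prodMk continuous_const).prodMk continuous_snd
  have h2 : MapsTo (fun x : (SL(2, ℝ) × ℝ) × ℍ => (((x.1, σ), x.2) : ((SL(2, ℝ) × ℝ) × ℝ) × ℍ))
      {x | |x.1.2| ≤ k} {x | |x.1.1.2| ≤ k} := fun x hx => hx
  exact hf.comp h1.continuousOn h2

theorem NUM_comp2 (k : ℝ) (f : ℝ × ℝ × SL(2, ℝ) → SL(2, ℝ)) (hf : ContinuousOn f {p | |p.1| ≤ k}) (τ : ℝ) :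
    ContinuousOn (fun p : SL(2, ℝ) × ℝ => f (p.2, τ, p.1)) {p | |p.2| ≤ k} := by
  have h1 : Continuous fun p : SL(2, ℝ) × ℝ => ((p.2, τ, p.1) : ℝ × ℝ × SL(2, ℝ)) :=
    continuous_snd.prodMk (continuous_const.prodMk continuous_fst)
  have h2 : MapsTo (fun p : SL(2, ℝ) × ℝ => ((p.2, τ, p.1) : ℝ × ℝ × SL(2, ℝ))) {p | |p.2| ≤ k}
      {p | |p.1| ≤ k} := fun x hx => hx
  exact hf.comp h1.continuousOn h2

/-- **Row NUM** -/
theorem NUM_proof (hNPR : NPR_stmt) (hNQS : NQS_stmt) (hVBO : VBO_stmt) (hNUL : NUL_stmt) (hNHA : NHA_stmt)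
    (hVDM : VDM_stmt) (hNUB : NUB_stmt) : NUM_stmt := by
  classical
  intro k hk
  obtain ⟨C1, hC1, -, hBom, hBod, -⟩ := hVBO
  obtain ⟨C2, hC2, hUL⟩ := hNUL k hk
  obtain ⟨C3, hC3, hHA⟩ := hNHA k hk
  obtain ⟨C4, hC4, hUB⟩ := hNUB k hk
  refine ⟨max (max C1 C2) 8 + C3, by linarith [le_max_right (max C1 C2) 8], ?_⟩
  intro ch B A hch hA
  set C := max (max C1 C2) 8 + C3 with hCdef
  have hC8 : 8 ≤ C := by linarith [le_max_right (max C1 C2) 8]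
  have hCC1 : C1 ≤ C := by linarith [(le_max_left C1 C2).trans (le_max_left (max C1 C2) 8)]
  have hCC2 : C2 ≤ C := by linarith [(le_max_right C1 C2).trans (le_max_left (max C1 C2) 8)]
  have hCC3 : C3 + 4 / 5 ≤ C := by linarith [le_max_right (max C1 C2) 8]
  have he3 := hA.e3
  have hz0 : 0 < A.z := lt_of_lt_of_le (mul_pos (by linarith) hA.e3) hA.z
  have hz1 : A.z ≤ A.z1 := by nlinarith [hA.z1]
  have hz10 : 0 < A.z1 := lt_of_lt_of_le hz0 hz1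
  have hz12 : A.z1 ≤ A.z2 := by nlinarith [hA.z2]
  have hz20 : 0 < A.z2 := lt_of_lt_of_le hz10 hz12
  have hm1 : (1 : ℝ) ≤ A.m := by exact_mod_cast hA.m
  have hzz : 8 * A.z2 ≤ 1 := by
    have h1 := hA.up
    have h2 : A.z2 ≤ A.m * A.z2 := by nlinarith
    nlinarith
  have hRg : Rg C2 A.e3 A.z A.z1 := by
    refine ⟨he3.le, hz0, hz1, ?_, ?_⟩
    · have := hA.z
      nlinarith
    · have := hA.z2
      nlinarith
  obtain ⟨R1, hR1, hul⟩ := hUL ch A.e3 A.z A.z1 0 B hch hRg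
  obtain ⟨R2, hR2, hqs⟩ := hNQS ch A.z k hch hk hz0 (by linarith)
  obtain ⟨R3, hR3, hev⟩ := NUM_ev k C A.z2 A.e3 hk (by linarith) (by linarith) he3
  refine ⟨max (max R1 R2) R3, hR3.trans (le_max_right _ _), ?_⟩
  intro R Γ F D hR hDm hOK
  have hRR1 : R1 ≤ R := ((le_max_left _ _).trans (le_max_left _ _)).trans hR
  have hRR2 : R2 ≤ R := ((le_max_right _ _).trans (le_max_left _ _)).trans hR
  obtain ⟨hWk, h2R, hW8, hr0, hr1, hCr, hCr', hσ0⟩ := hev R ((le_max_right _ _).trans hR)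
  have hU : PV Γ k D.U := (hUB Γ B D.U hOK.pot).1
  obtain ⟨hGc, -, hGi, -⟩ := hqs R Γ F D.U hRR2 hDm hU
  obtain ⟨-, -, -, hmz, hdm⟩ := hVDM Γ F hDm
  have hWabs : ∀ E ∈ Wi 2 R, |E| ≤ k := fun E hE => abs_le.2 ⟨by linarith [hE.1], by linarith [hE.2]⟩
  have hWI : Wi 2 R ⊆ Icc (-1) 1 := fun E hE => ⟨by linarith [hE.1], by linarith [hE.2]⟩
  have hWm : MeasurableSet (Wi 2 R) := measurableSet_Icc
  have hM : VUM_M Γ F (Wi 2 R) := by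
    obtain ⟨b1, b2, -⟩ := hdm univ MeasurableSet.univ
    rw [univ_prod_univ, Measure.restrict_univ] at b1 b2
    refine ⟨b1, hWm, b2, fun T => ?_, hmz, hDm⟩
    have := (hdm (Wi 2 R) hWm).2.2.2.2.2 T
    rwa [inter_eq_left.2 hWI] at this
  obtain ⟨hψc, -, -, -, -, -, hinv⟩ := hNPR ch A.z A.z1 R k Γ B D hch hz10 (by linarith) h2R hOK
  have hψσ : ContinuousOn (fun x : (SL(2, ℝ) × ℝ) × ℍ => psi D ch A.z A.z1 R (A.sg R) x.1 x.2) {x | |x.1.2| ≤ k} :=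
    NUM_comp1 k (fun x : ((SL(2, ℝ) × ℝ) × ℝ) × ℍ => psi D ch A.z A.z1 R x.1.2 x.1.1 x.2) hψc (A.sg R)
  have hfl : ∀ τ : ℝ, ContinuousOn (fun p : SL(2, ℝ) × ℝ => D.fl p.2 τ p.1) {p | |p.2| ≤ k} := by
    intro τ
    exact NUM_comp2 k (fun p : ℝ × ℝ × SL(2, ℝ) => D.fl p.1 p.2.1 p.2.2) hOK.cfl τ
  have hσ : A.sg R = A.e3 * Real.log R := rfl
  have hr : A.r R = R ^ (-(1 / 2) + A.z2) := rfl
  -- distances
  have hNbd : ∀ p q : SL(2, ℝ) × ℝ, Nb (A.r R) p q → dW p q ≤ C1 * A.r R := by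
    intro p q h
    have h1 := hBod (A.r R) (p.1⁻¹ * q.1) (by rw [hr]; exact hr0) (by rw [hr]; exact hr1) h.1
    rwa [VUM_isom'] at h1
  have hC1r : C1 * A.r R ≤ C * A.r R := mul_le_mul_of_nonneg_right hCC1 (by rw [hr]; exact hr0.le)
  have hph : ∀ p : SL(2, ℝ) × ℝ, p.2 ∈ Wi 2 R → dW p (D.ph (A.sg R) p) ≤ C3 * A.sg R := by
    intro p hp
    have h1 := (hHA Γ B D hOK p.2 0 (A.sg R) (hWabs _ hp) p.1).2.2.2
    rw [abs_of_nonneg (by rw [hσ]; exact hσ0)] at h1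
    show dist (p.1 • I : ℍ) (D.fl p.2 (A.sg R) p.1 • I) ≤ _
    rw [dist_comm]
    exact h1
  have hT1 : ∀ p q : SL(2, ℝ) × ℝ, p.2 ∈ Wi 2 R → Nb (A.r R) (D.ph (A.sg R) p) q → dW p q ≤ C * A.sg R := by
    intro p q hp hpq
    have h1 : dW p q ≤ dW p (D.ph (A.sg R) p) + dW (D.ph (A.sg R) p) q := dist_triangle _ _ _
    have h2 := hph p hp
    have h3 := hNbd _ _ hpq
    rw [hr, hσ] at *
    have h4 := mul_le_mul_of_nonneg_right hCC3 hσ0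
    linarith
  have hph0 : ∀ p : SL(2, ℝ) × ℝ, D.ph 0 p = p := fun p => Prod.ext (hOK.fl0 p.2 p.1) rfl
  -- the two kernels
  have hGW : ∀ p : SL(2, ℝ) × ℝ, p.2 ∈ Wi 2 R → p ∈ GW 2 R := fun p hp => ⟨mem_univ _, hp⟩
  have hus := NUM_ker hM D (A.sg R) (A.r R) (R ^ (2 + C2 * A.z1)) (C * A.sg R) (psi D ch A.z A.z1 R (A.sg R))
    (Gp D.U ch A.z R) hWabs hψσ (fun γ p z => (hinv γ p (A.sg R)).2.2.2 z) hGc hGi
    (fun p q hp hq => (hul R (A.sg R) Γ D p q hRR1 hOK (by rw [hσ]; exact hσ0) le_rfl (hGW p hp) (hGW q hq)).1)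
    (hfl _) (fun γ p => (hinv γ p (A.sg R)).1) hT1 (hBom _)
  have hpr := NUM_ker hM D 0 (A.r R) (R ^ (2 + C2 * A.z1)) (C1 * A.r R) (Gp D.U ch A.z R)
    (Gp D.U ch A.z R) hWabs hGc.continuousOn hGi hGc hGi
    (fun p q hp hq => (hul R (A.sg R) Γ D p q hRR1 hOK (by rw [hσ]; exact hσ0) le_rfl (hGW p hp) (hGW q hq)).2.2.2.1)
    (hfl _) (fun γ p => (hinv γ p 0).1) (fun p q _ h => by
      rw [hph0] at h
      exact hNbd p q h) (hBom _)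
  have hus_eq : us D ch A R = VUM_K D (A.sg R) (A.r R) (Wi 2 R) (psi D ch A.z A.z1 R (A.sg R)) (Gp D.U ch A.z R) := by
    funext p q
    unfold us VUM_K
    rfl
  have hpr_eq : pr D ch A R = VUM_K D 0 (A.r R) (Wi 2 R) (Gp D.U ch A.z R) (Gp D.U ch A.z R) := by
    funext p q
    unfold Pool.Agent.VQ.pr VUM_K
    rw [hph0]
  rw [← hus_eq] at hus
  rw [← hpr_eq] at hpr
  have husm : ∀ j, KZ Γ dW (usm D ch A R j) ∧ VUM_S (Wi 2 R) (usm D ch A R j) := by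
    intro j
    induction j with
    | zero => exact hpr
    | succ j ih => exact VUM_cmp hM hus.1 hus.2 ih.1 ih.2
  have hcond : ∀ p q, us D ch A R p q ≠ 0 → p.2 ∈ Wi 2 R ∧ q.2 ∈ Wi 2 R ∧ Nb (A.r R) (D.ph (A.sg R) p) q := by
    intro p q h
    by_contra hx
    apply h
    unfold us
    rw [if_neg hx]
  have hcond0 : ∀ p q, pr D ch A R p q ≠ 0 → p.2 ∈ Wi 2 R ∧ q.2 ∈ Wi 2 R ∧ Nb (A.r R) p q := by
    intro p q h
    by_contra hx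
    apply h
    unfold Pool.Agent.VQ.pr
    rw [if_neg hx]
  refine ⟨hus.1, fun j => (husm j).1, ?_, fun p q h => ⟨hGW p (hus.2 p q h).1, hGW q (hus.2 p q h).2⟩,
    fun j p q h => ⟨hGW p ((husm j).2 p q h).1, hGW q ((husm j).2 p q h).2⟩, ?_, ?_⟩
  · intro j
    induction j with
    | zero =>
      intro p q h
      have h1 := hcond0 p q h
      refine ⟨h1, ?_⟩
      have h2 := hNbd p q h1.2.2
      rw [Nat.cast_zero, zero_mul, mul_zero, zero_add]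
      rw [hr] at *
      linarith
    | succ j ih =>
      intro p q h
      obtain ⟨x, hx1, hx2⟩ := VUM_ex (show ∫ x, us D ch A R p x * usm D ch A R j x q ∂mP ≠ 0 from h)
      have h1 := hcond p x hx1
      obtain ⟨h2, h3⟩ := ih x q hx2
      refine ⟨⟨x, h1.1, h1.2.1, h1.2.2, h2⟩, ?_⟩
      have h4 : dW p q ≤ dW p x + dW x q := dist_triangle _ _ _
      have h5 := hT1 p x h1.1 h1.2.2
      push_cast
      linarith
  · intro K v hK hS hv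
    exact VUM_FP hM hK (fun p q h => ⟨((hS p q h).1).2, ((hS p q h).2).2⟩) hv
  · intro j v p hv
    obtain ⟨b, hb⟩ := hv.bdd
    exact VUM_fub hM hus.1 hus.2 (husm j).1 (husm j).2 hv.meas hb p

end

end Pool.Agent.VN
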