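import Pool.Agent.helper11.VN.Spec3b
import Pool.Agent.helper75.VQ.PRV

/-!
# Project VN (MP_07c750_an), row PRN: one frequency (adaptation of PRV)
-/

set_option autoImplicit false

open scoped MatrixGroups ContDiff Topology UpperHalfPlane ComplexConjugate ENNReal
open UpperHalfPlane MeasureTheory Filter Set

namespace Pool.Agent.VN

open Pool.Agent.RS Pool.Agent.VQ
open Pool.Agent.RPQ (CEig mean VV IsOp IsMul OProj wrd PJ nst mks MO Net Cl CkB PN upd Eqd)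

theorem PRN_cont (Γ : Subgroup SL(2, ℝ)) (k : ℝ) (B : ℕ → ℝ) (D : Dyn) (hD : OKN Γ k B D) (E : ℝ) (g : SL(2, ℝ)) (f : ℍ → ℝ)
    (hf : Continuous f) : Continuous fun s : ℝ => D.U (D.fl E s g • I) * f (D.fl E s g • I) := by
  by_cases hE : |E| ≤ k
  · have h1 : Continuous fun s : ℝ => D.fl E s g :=
      hD.cfl.comp_continuous (f := fun s : ℝ => (E, s, g)) (by fun_prop) fun s => hE
    have h2 : Continuous fun g : SL(2, ℝ) => (g • I : ℍ) := continuous_id.smul continuous_const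
    have h3 : Continuous D.U := hD.pot.inv.1
    exact (h3.comp (h2.comp h1)).mul (hf.comp (h2.comp h1))
  · have h : ∀ s, D.fl E s g = g := fun s => (hD.out E s g (not_le.mp hE)).1
    simp only [h]
    exact continuous_const

theorem PRN_lin (Γ : Subgroup SL(2, ℝ)) (k : ℝ) (B : ℕ → ℝ) (D : Dyn) (hD : OKN Γ k B D) {J : ℕ} (χ : Fin J → ℍ → ℝ) (hχ : ∀ j, Continuous (χ j)) (ξ : Fin J → ℝ)
    (W : ℍ → ℝ) (hW : Continuous W) (R s t : ℝ) (p : SL(2, ℝ) × ℝ) :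
    thP D (fun z => W z + s * VV χ ξ z) R t p = thP D W R t p - ∑ a, ξ a * thP D (χ a) (-(R * s)) t p := by
  unfold thP VV
  have e1 : ∀ x : ℝ, D.U (D.fl p.2 x p.1 • I) * (W (D.fl p.2 x p.1 • I) + s * ∑ j, ξ j * χ j (D.fl p.2 x p.1 • I)) =
      D.U (D.fl p.2 x p.1 • I) * W (D.fl p.2 x p.1 • I) + ∑ j, (s * ξ j) * (D.U (D.fl p.2 x p.1 • I) * χ j (D.fl p.2 x p.1 • I)) := by
    intro x
    rw [mul_add, Finset.mul_sum, Finset.mul_sum]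
    congr 1
    exact Finset.sum_congr rfl fun j _ => by ring
  have c1 := PRN_cont Γ k B D hD p.2 p.1 W hW
  have c2 := fun j => PRN_cont Γ k B D hD p.2 p.1 (χ j) (hχ j)
  have c3 : ∀ j, Continuous fun x : ℝ => (s * ξ j) * (D.U (D.fl p.2 x p.1 • I) * χ j (D.fl p.2 x p.1 • I)) := fun j => continuous_const.mul (c2 j)
  have c4 : Continuous fun x : ℝ => ∑ j, (s * ξ j) * (D.U (D.fl p.2 x p.1 • I) * χ j (D.fl p.2 x p.1 • I)) := continuous_finsetSum _ fun j _ => c3 j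
  simp only [e1]
  rw [intervalIntegral.integral_add (c1.intervalIntegrable _ _) (c4.intervalIntegrable _ _),
    intervalIntegral.integral_finsetSum (fun j _ => (c3 j).intervalIntegrable _ _)]
  simp only [intervalIntegral.integral_const_mul]
  rw [mul_add, Finset.mul_sum, sub_eq_add_neg, ← Finset.sum_neg_distrib]
  congr 1
  exact Finset.sum_congr rfl fun j _ => by ring

theorem PRN_KB (Γ : Subgroup SL(2, ℝ)) (k : ℝ) (B : ℕ → ℝ) (D : Dyn) (hD : OKN Γ k B D) {J : ℕ} (χ : Fin J → ℍ → ℝ) (hχ : ∀ j, Continuous (χ j)) (ξ : Fin J → ℝ)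
    (W : ℍ → ℝ) (hW : Continuous W) (R s : ℝ) (ch : ℝ → ℝ) (A : Prm) :
    KB D ch A R (fun z => W z + s * VV χ ξ z) =
      stZ (fun p => ∑ a, ξ a * thP D (χ a) (-(R * s)) (A.tu R) p) (stZ (fun p => -thP D W R (A.tu R) p) (ub D ch A R)) := by
  funext p q
  unfold KB stZ
  rw [PRN_lin Γ k B D hD χ hχ ξ W hW R s (A.tu R) p, ← mul_assoc, ← Complex.exp_add]
  congr 2
  push_cast
  ring

theorem PRN_proof (hDTN : DTN_stmt) (hVHPN : VHPN_stmt) (hWXN : WXN_stmt) (hPIZ : VQ.PIZ_stmt) (hPSC : VQ.PSC_stmt) (hMTVN : MTVN_stmt) (hKSZ : VQ.KSZ_stmt)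
    (hSNC : RPQ.SNC_stmt) (hCKB : RPQ.CKB_stmt) (hLIP : RPQ.LIP_stmt) : PRN_stmt := by
  classical
  intro Γ F κ ch k B hΓ hF hκ hch hk
  obtain ⟨CD, hCD, hDT⟩ := hDTN Γ F ch k B hΓ hF hch hk
  obtain ⟨Cm, hCm, hSm⟩ := PRV_sm hCKB hLIP Γ κ hκ
  intro h e hTF he
  obtain ⟨v0, C1, hv0, hC1, hVH2⟩ := hVHPN Γ F κ ch k B hΓ hF hch hk h (e / 4) hTF (by positivity)
  refine ⟨v0, C1, hv0, hC1, ?_⟩
  intro T0 E0 C0 M0 hT0 hE0 hC0 hM0
  obtain ⟨θ, b, L, n, N, A, a, R1, C2, hθ, hb, hL, hn, hN, hLn, hMθ, hAdm, hNst, ha, hR1, hC2, hVH3⟩ := hVH2 CD T0 E0 (M0 + 1) hCD hT0 hE0 (by linarith)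
  obtain ⟨δ', R2, hδ', hR2, hDT2⟩ := hDT A h (e / 4) b L n hAdm hTF (by positivity) hb hL hn
  obtain ⟨R3, hR3, hWX2⟩ := hWXN Γ F ch k B N (M0 + 1) hΓ hF hk hN (by linarith)
  obtain ⟨Ad, hAd⟩ : ∃ Ad : Finset (List ℕ), ∀ l, l ∈ Ad ↔ l ∈ AdZ b L n :=
    ⟨(PRV_fin b L n).toFinset, fun l => (PRV_fin b L n).mem_toFinset⟩
  obtain ⟨R4, hR4⟩ : ∃ R4 : ℝ, ∀ R, R4 ≤ R → 1 + Cm * C0 ≤ R ^ (1 / 200 : ℝ) := by
    have h1 := (tendsto_rpow_atTop (show (0 : ℝ) < 1 / 200 by norm_num)).eventually (eventually_ge_atTop (1 + Cm * C0))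
    exact eventually_atTop.1 h1
  refine ⟨a, max R1 (max R2 (max R3 (max R4 ((Ad.card : ℝ) / δ' ^ 2)))), C2, ha, hR1.trans (le_max_left _ _), hC2, ?_⟩
  intro R ρ s J p χ W D hR hρ1 hρ2 hs1 hs2 hNet hD hU hW
  have hRa : R1 ≤ R := (le_max_left _ _).trans hR
  have hRx := (le_max_right _ _).trans hR
  have hRb : R2 ≤ R := (le_max_left _ _).trans hRx
  have hRy := (le_max_right _ _).trans hRx
  have hRc : R3 ≤ R := (le_max_left _ _).trans hRy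
  have hRz := (le_max_right _ _).trans hRy
  have hRd : R4 ≤ R := (le_max_left _ _).trans hRz
  have hRe : (Ad.card : ℝ) / δ' ^ 2 ≤ R := (le_max_right _ _).trans hRz
  have hR3' : 3 ≤ R := hR1.trans hRa
  have hR0 : 0 < R := by linarith
  have hlog : 1 ≤ Real.log R := by
    rw [Real.le_log_iff_exp_le hR0]
    have := Real.exp_one_lt_d9
    linarith
  have hp : 0 < R ^ (-(1 / 1000) : ℝ) := Real.rpow_pos_of_pos hR0 _
  have hρ0 : 0 < ρ := lt_of_lt_of_le hp hρ1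
  have hρ3 : ρ ≤ 1 := hρ2.trans (Real.rpow_le_one_of_one_le_of_nonpos hlog (by linarith))
  have hs0 : 0 ≤ s := by
    have h1 : 0 < R * s := lt_of_lt_of_le (by positivity) hs1
    exact (pos_of_mul_pos_right h1 hR0.le).le
  obtain ⟨ζ, c0, nc, hH⟩ := hVH3 R ρ (-(R * s)) C0 J p χ D hRa hρ0 hρ2 (by rw [abs_neg, abs_of_nonneg (by positivity)]; exact hs1) hNet hD
    (by
      have e1 : e / 4 / 2 = e / 8 := by ring
      rw [e1]
      exact hU)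
  obtain ⟨-, -, -, -, hSm1, hSm2⟩ := hMTVN Γ k B D F h R (A.tu R) (e / 4) hΓ hD hF hTF.inv
  obtain ⟨hWm, hWi, -⟩ := hMTVN Γ k B D F W R (A.tu R) (e / 4) hΓ hD hF hW.inv
  have hχm := fun j => hMTVN Γ k B D F (χ j) (-(R * s)) (A.tu R) (e / 4) hΓ hD hF (hNet.inv j)
  have hPS := hPSC Γ F R hΓ hF
  have := hPS.sf
  have hKW : KZ Γ dW (stZ (fun p => -thP D W R (A.tu R) p) (ub D ch A R)) :=
    (hKSZ Γ _ (mW R) (DW F) dW hPS).1 _ _ hWm.neg (fun γ p => by rw [hWi γ p]) hH.ker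
  -- the function of xi
  obtain ⟨G, hG⟩ : ∃ G : List ℕ → (Fin J → ℝ) → ENNReal, G = fun l ξ =>
    ∫⁻ x in DW F, ∫⁻ y in DW F, ‖perZ Γ (wdZ (mW R) (stZ (fun p => ∑ a, ξ a * thP D (χ a) (-(R * s)) (A.tu R) p)
      (stZ (fun p => -thP D W R (A.tu R) p) (ub D ch A R))) (SB D F h (e / 4) (A.tu R) R) l) x y‖ₑ ^ 2 ∂mW R ∂mW R := ⟨_, rfl⟩
  have hmeasure : ∀ l ∈ Ad, PJ J {ξ : Fin J → ℝ | ¬ G l ξ ≤ ENNReal.ofReal (δ' ^ 2)} ≤ ENNReal.ofReal (R ^ (-(M0 + 1)) / δ' ^ 2) := by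
    intro l hl
    have hl' := (hAd l).1 hl
    refine PRV_markov J (G l) ?_ δ' _ hδ' ?_
    · let _ : MeasurableSpace Γ := ⊤
      have : DiscreteMeasurableSpace Γ := ⟨fun _ => trivial⟩
      obtain ⟨-, -, hm⟩ := hPIZ Γ _ (mW R) (DW F) dW hPS J (fun a => thP D (χ a) (-(R * s)) (A.tu R)) _ (SB D F h (e / 4) (A.tu R) R) l
        (fun a => ⟨(hχm a).1, fun γ y => (hχm a).2.1 γ y⟩) hKW hSm1 hSm2 (PRV_ne hL hl')
      have hm2 : Measurable fun q : ((Fin J → ℝ) × (SL(2, ℝ) × ℝ)) × (SL(2, ℝ) × ℝ) =>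
          ‖perZ Γ (wdZ (mW R) (stZ (fun p => ∑ a, q.1.1 a * thP D (χ a) (-(R * s)) (A.tu R) p)
            (stZ (fun p => -thP D W R (A.tu R) p) (ub D ch A R))) (SB D F h (e / 4) (A.tu R) R) l) q.1.2 q.2‖ₑ ^ 2 := by
        have hm3 := (hm.comp (g := fun p : (Fin J → ℝ) × ((SL(2, ℝ) × ℝ) × (SL(2, ℝ) × ℝ)) => perZ Γ (wdZ (mW R) (stZ (fun y => ∑ a, p.1 a * thP D (χ a) (-(R * s)) (A.tu R) y)
            (stZ (fun p => -thP D W R (A.tu R) p) (ub D ch A R))) (SB D F h (e / 4) (A.tu R) R) l) p.2.1 p.2.2)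
          (f := fun q : ((Fin J → ℝ) × (SL(2, ℝ) × ℝ)) × (SL(2, ℝ) × ℝ) => (q.1.1, (q.1.2, q.2)))
          (by fun_prop))
        exact (hm3.enorm).pow_const 2
      rw [hG]
      exact (hm2.lintegral_prod_right' (ν := (mW R).restrict (DW F))).lintegral_prod_right' (ν := (mW R).restrict (DW F))
    · rw [hG]
      exact hWX2 D A R θ ζ c0 b L n nc J χ (-(R * s)) (BadP D F h (e / 4) (A.tu R)) (SB D F h (e / 4) (A.tu R) R) (fun p => -thP D W R (A.tu R) p) l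
        hRc hD hNet.inv hH hSm1 hSm2 (fun p hp => ⟨hp.1, hp.2⟩) hWm.neg (fun γ p => by rw [hWi γ p]) hb hL hl' (hNst l hl') hθ hMθ
  -- the bad set
  have hsub : {ξ : Fin J → ℝ | ¬ Gd Γ F h e R (fun z => Real.log (D.U z) + (W z + s * VV χ ξ z))} ⊆
      {ξ | ¬ ∀ j, |ξ j| ≤ 1} ∪ ⋃ l ∈ Ad, {ξ : Fin J → ℝ | ¬ G l ξ ≤ ENNReal.ofReal (δ' ^ 2)} := by
    intro ξ hbad
    by_contra hcon
    rw [Set.mem_union, not_or] at hcon
    obtain ⟨hc1, hc2⟩ := hcon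
    have hξ : ∀ j, |ξ j| ≤ 1 := not_not.1 hc1
    apply hbad
    have hws : ∀ l ∈ AdZ b L n, G l ξ ≤ ENNReal.ofReal (δ' ^ 2) := by
      intro l hl
      by_contra h1
      exact hc2 (Set.mem_biUnion ((hAd l).2 hl) h1)
    intro F' μ φ hF' hnear hμ hμ1 hφ
    have hEg : EgT Γ D.U R (fun z => W z + s * VV χ ξ z) F' μ φ :=
      ⟨hSm C0 R ρ s J p χ W ξ hC0 (by linarith) (hR4 R hRd) hρ1 hρ3 hs0 hs2 hNet hW hξ, hF', hnear, hμ, hμ1, hφ⟩
    have h1 := hDT2 R D (fun z => W z + s * VV χ ξ z) F' μ φ hRb hD hEg (fun l hl => by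
      have h2 := hws l hl
      unfold HSv
      rw [PRN_KB Γ _ B D hD χ (fun j => (hNet.inv j).1) ξ W hW.inv.1 R s ch A]
      rw [hG] at h2
      exact h2)
    refine h1.trans ?_
    refine mul_le_mul_of_nonneg_right (by linarith) ?_
    unfold nn
    exact integral_nonneg fun z => by positivity
  have hnull : PJ J {ξ : Fin J → ℝ | ¬ ∀ j, |ξ j| ≤ 1} = 0 := (hSNC J).2.1
  refine (measure_mono hsub).trans ((measure_union_le _ _).trans ?_)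
  rw [hnull, zero_add]
  have hsum : PJ J (⋃ l ∈ Ad, {ξ : Fin J → ℝ | ¬ G l ξ ≤ ENNReal.ofReal (δ' ^ 2)}) ≤
      ∑ l ∈ Ad, ENNReal.ofReal (R ^ (-(M0 + 1)) / δ' ^ 2) :=
    (measure_biUnion_finset_le _ _).trans (Finset.sum_le_sum fun l hl => hmeasure l hl)
  refine hsum.trans ?_
  rw [Finset.sum_const, nsmul_eq_mul, ← ENNReal.ofReal_natCast, ← ENNReal.ofReal_mul (by positivity)]
  apply ENNReal.ofReal_le_ofReal
  have h1 : R ^ (-M0) = R ^ (-(M0 + 1)) * R := by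
    rw [← Real.rpow_add_one hR0.ne']
    congr 1
    ring
  rw [h1]
  have h2 : 0 < R ^ (-(M0 + 1)) := Real.rpow_pos_of_pos hR0 _
  calc (Ad.card : ℝ) * (R ^ (-(M0 + 1)) / δ' ^ 2) = R ^ (-(M0 + 1)) * ((Ad.card : ℝ) / δ' ^ 2) := by ring
    _ ≤ R ^ (-(M0 + 1)) * R := mul_le_mul_of_nonneg_left hRe h2.le

end Pool.Agent.VN
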